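import Pool.Agent.Lib.MP_05b481_an.JT.Main

/-!
Fréchet smooth norms on the Asplund James tree spaces over arbitrary trees, and on their subspaces.
-/

set_option autoImplicit false

namespace Pool.Agent.Results.MP_05b481_an.JamesTree

open Pool.Agent.JTS

/-- Let `T` be a tree (any height, any cardinality), `1 < p < ∞`, `Z` a Banach space with an equivalent Fréchet smooth
norm and `X` the James tree space `JT_p(T; Z)`. If `X` is an Asplund space, then every normed space `Y` which is isomorphic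
to a subspace of `X` (for example `X` itself) has an equivalent norm that is Fréchet differentiable at every nonzero
point. -/
theorem result :
    ∀ (T : Type) [PartialOrder T], IsTree T → ∀ p : ℝ, 1 < p →
    ∀ (Z : Type) [NormedAddCommGroup Z] [NormedSpace ℝ Z] [CompleteSpace Z],
      (∃ ν : Z → ℝ, SmoothNorm Z ν) →
    ∀ (X : Type) [NormedAddCommGroup X] [NormedSpace ℝ X] (e : (T →₀ Z) →ₗ[ℝ] X),
      IsJT T Z X p e → Asplund X →
    ∀ (Y : Type) [NormedAddCommGroup Y] [NormedSpace ℝ Y] (j : Y →L[ℝ] X),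
      (∃ c : ℝ, 0 < c ∧ ∀ y : Y, c * ‖y‖ ≤ ‖j y‖) → ∃ N : Y → ℝ, SmoothNorm Y N := by
  intro T _ hT p hp Z _ _ _ hZ X _ _ e hJ hA Y _ _ j hj
  obtain ⟨ν, hν⟩ := hZ
  obtain ⟨N, hN⟩ := main hT hp hν hJ hA
  obtain ⟨c, hc, hcj⟩ := hj
  obtain ⟨a, b, ha, hb, hab⟩ := hN.equiv
  have hinj : ∀ y : Y, y ≠ 0 → j y ≠ 0 := by
    intro y hy h0
    have h1 := hcj y
    rw [h0, norm_zero] at h1
    have h2 : 0 < c * ‖y‖ := mul_pos hc (norm_pos_iff.2 hy)
    linarith
  refine ⟨fun y => N (j y), ?_, ?_, ?_, ?_⟩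
  · intro x y
    show N (j (x + y)) ≤ N (j x) + N (j y)
    rw [map_add]
    exact hN.tri _ _
  · intro c x
    show N (j (c • x)) = |c| * N (j x)
    rw [map_smul]
    exact hN.hom _ _
  · refine ⟨a * c, b * (‖j‖ + 1), mul_pos ha hc, mul_pos hb (by positivity), fun y => ⟨?_, ?_⟩⟩
    · have h1 := (hab (j y)).1
      have h2 := mul_le_mul_of_nonneg_left (hcj y) ha.le
      calc a * c * ‖y‖ = a * (c * ‖y‖) := by ring
        _ ≤ a * ‖j y‖ := h2
        _ ≤ N (j y) := h1
    · have h1 := (hab (j y)).2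
      have h2 : ‖j y‖ ≤ (‖j‖ + 1) * ‖y‖ := by
        refine (j.le_opNorm y).trans ?_
        exact mul_le_mul_of_nonneg_right (by linarith) (norm_nonneg y)
      calc N (j y) ≤ b * ‖j y‖ := h1
        _ ≤ b * ((‖j‖ + 1) * ‖y‖) := mul_le_mul_of_nonneg_left h2 hb.le
        _ = b * (‖j‖ + 1) * ‖y‖ := by ring
  · intro y hy
    exact (hN.smooth (j y) (hinj y hy)).comp y j.differentiableAt

end Pool.Agent.Results.MP_05b481_an.JamesTree
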